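import Pool.Agent.R30B.Stmts

/-!
# Squad R30B, row WHT: the white triangle
-/

set_option autoImplicit false

namespace Pool.Agent.R30B.H34

open Pool.Agent.R30B

/-- the row WHT -/
theorem wht : WhtStmt := by
  intro D hD a h0 h1
  have key : ∀ k : ℕ, (∀ t, t + (k + 1) ≤ a + 1 → D t (k + 1) = false) ∧
      ∀ t, t + (k + 1) ≤ a → D t k = false := by
    intro k
    induction k with
    | zero => exact ⟨fun t ht => h1 t (by omega), fun t ht => h0 t (by omega)⟩
    | succ k ih =>
      refine ⟨fun t ht => ?_, fun t ht => ih.1 t (by omega)⟩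
      have h2 := hD t k
      rw [ih.1 (t + 1) (by omega), ih.1 t (by omega), ih.2 t (by omega)] at h2
      simpa using h2.symm
  intro t k hk htk
  obtain ⟨k, rfl⟩ := Nat.exists_eq_add_of_le' hk
  exact (key k).1 t htk

end Pool.Agent.R30B.H34
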